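import Pool.Agent.J4H50.YJ.Stm
import Pool.Agent.Y230.RE.Exist
import Pool.Agent.J4H97.YP.Alg

set_option autoImplicit false
set_option linter.unusedSectionVars false

/-! # Project YJ, (EX): the tree of blow-ups of a reduced plane curve germ, with its zeta function -/

namespace Pool.Agent.J4H97.YJ

open MvPolynomial Pool.Agent.Y230.RE Pool.Agent.J4H97.YP
open Pool.Agent.W574.SM (chart chartI)
open Pool.Agent.J4H50.YO (RedZeta)
open Pool.Agent.W574.MO (mf)

theorem chart_eq (c : ℂ) : chart c = ch c := rfl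

theorem chartI_eq : chartI = (chI : Fin 2 → A ℂ) := rfl

/-- no multiple components through the origin -/
def Rd (g : A ℂ) : Prop := ∀ h κ : A ℂ, g = h ^ 2 * κ → constantCoeff h ≠ 0

theorem Rd.ne {g : A ℂ} (h : Rd g) : g ≠ 0 := by
  rintro rfl
  exact h 0 0 (by simp) (map_zero _)

/-- reducedness of the transform in a chart with the Jacobian determinant `J`, a power of the coordinate `X e` -/
theorem rd_child {g g' : A ℂ} (hg : Rd g) {ξ : Fin 2 → A ℂ} (hξ : ∀ i, constantCoeff (ξ i) = 0) (e : Fin 2) {m : ℕ}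
    (h : aeval ξ g = X e ^ m * g')
    (hJ : pderiv 0 (ξ 0) * pderiv 1 (ξ 1) - pderiv 1 (ξ 0) * pderiv 0 (ξ 1) = X e) (hg' : ¬ (X e : A ℂ) ∣ g') : Rd g' := by
  intro a κ ha ha0
  have hg0 : g' ≠ 0 := by
    rintro h0
    exact hg' (h0 ▸ dvd_zero _)
  have ha1 : a ≠ 0 := by
    rintro rfl
    exact hg0 (by rw [ha]; simp)
  have hI : (RingHom.ker (constantCoeff : A ℂ →+* ℂ)).IsPrime := RingHom.ker_isPrime _
  obtain ⟨π, hπ, hπa, hπI⟩ := prime_factor hI ha1 (by rw [RingHom.mem_ker]; exact ha0)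
  rw [RingHom.mem_ker] at hπI
  refine no_mult (RingHom.id ℂ) hg.ne hg (ξ := ξ) hξ hπ hπI ?_ ?_
  · have e1 : eval₂Hom (C.comp (RingHom.id ℂ)) ξ g = aeval ξ g := by
      rw [aeval_def]
      rfl
    rw [e1, h, ha]
    exact ((pow_dvd_pow_of_dvd hπa 2).mul_right κ).mul_left _
  · rw [hJ]
    intro hd
    -- `π` is associated to `X e`
    have hX : Prime (X e : A ℂ) := MvPolynomial.X_prime
    have h1 : (X e : A ℂ) ∣ π := (hπ.irreducible.dvd_symm hX.irreducible) hd
    apply hg'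
    rw [ha]
    exact ((h1.trans hπa).trans (dvd_pow_self a two_ne_zero)).mul_right κ

theorem not_dvd_of_r0 {g : A ℂ} (h : r0 g ≠ 0) : ¬ (X 0 : A ℂ) ∣ g := by
  rintro ⟨w, rfl⟩
  apply h
  rw [map_mul]
  have : r0 (X 0 : A ℂ) = 0 := by simp [r0]
  rw [this, zero_mul]

theorem not_dvd_of_r1 {g : A ℂ} (h : r1 g ≠ 0) : ¬ (X 1 : A ℂ) ∣ g := by
  rintro ⟨w, rfl⟩
  apply h
  rw [map_mul]
  have : r1 (X 1 : A ℂ) = 0 := by simp [r1]
  rw [this, zero_mul]

/-- the induction over the tree -/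
theorem exists_red {R : Type} [CommRing R] (Φ : ℕ → ℕ → R) (ℓ : R) {g : Unit → A ℂ} {d0 d1 : Bool} (T : KT g d0 d1) :
    Rd (g ()) → ∀ a0 n0 a1 n1 : ℕ, (d0 = false → a0 = 0 ∧ n0 = 1) → (d1 = false → a1 = 0 ∧ n1 = 1) →
      ∃ Z : R, RedZeta Φ ℓ (g ()) a0 n0 a1 n1 Z := by
  classical
  induction T with
  | unit g d0 d1 j hj =>
    intro _ a0 n0 a1 n1 _ _
    exact ⟨_, RedZeta.unit _ a0 n0 a1 n1 hj⟩
  | curveV g d0 m hm h κ hg h0 h1 j hj =>
    intro hr a0 n0 a1 n1 _ h2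
    obtain ⟨rfl, rfl⟩ := h2 rfl
    have hm1 : m = 1 := by
      by_contra hne
      refine hr h (h ^ (m - 2) * κ ()) ?_ h0
      rw [hg (), ← mul_assoc, ← pow_add]
      congr 2
      omega
    subst hm1
    have e1 : g () = h * κ () := by rw [hg (), pow_one]
    refine ⟨_, RedZeta.curveV _ a0 n0 (by rw [e1, map_mul, h0, zero_mul]) ?_⟩
    rw [e1, Derivation.leibniz, map_add, smul_eq_mul, smul_eq_mul, map_mul, map_mul, h0, zero_mul, zero_add]
    exact mul_ne_zero hj h1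
  | curveU g d1 m hm h κ hg h0 h1 j hj =>
    intro hr a0 n0 a1 n1 h2 _
    obtain ⟨rfl, rfl⟩ := h2 rfl
    have hm1 : m = 1 := by
      by_contra hne
      refine hr h (h ^ (m - 2) * κ ()) ?_ h0
      rw [hg (), ← mul_assoc, ← pow_add]
      congr 2
      omega
    subst hm1
    have e1 : g () = h * κ () := by rw [hg (), pow_one]
    refine ⟨_, RedZeta.curveU _ a1 n1 (by rw [e1, map_mul, h0, zero_mul]) ?_⟩
    rw [e1, Derivation.leibniz, map_add, smul_eq_mul, smul_eq_mul, map_mul, map_mul, h0, zero_mul, zero_add]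
    exact mul_ne_zero hj h1
  | blowup g d0 d1 m hm gc gI hgc hgI hne h0 hc hI ih0 ihc ihI =>
    intro hr a0 n0 a1 n1 t0 t1
    obtain ⟨j0, hj0⟩ := hne
    have hP : r0 (gc 0 ()) ≠ 0 := hj0
    have hPc : ∀ c, r0 (gc c ()) = (r0 (gc 0 ())).comp (Polynomial.X + Polynomial.C c) := fun c => by
      rw [ch_shift (hgc 0 ()) (hgc c ()), r0_shift]
    have hc0 : ∀ c, r0 (gc c ()) ≠ 0 := fun c => by
      rw [hPc c]
      exact comp_ne _ c hP
    have hI1 : r1 (gI ()) ≠ 0 := by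
      rw [r1_lead (hgI ())]
      rw [r0_lead (hgc 0 ())] at hP
      obtain ⟨i, hi⟩ : ∃ i, ((om (g ())).coeff m).coeff i ≠ 0 := by
        by_contra hno
        push Not at hno
        exact hP (Polynomial.ext hno)
      rw [om_coeff] at hi
      split_ifs at hi with him
      · intro h2
        have h3 := congrArg (fun p : Polynomial ℂ => p.coeff (m - i)) h2
        simp only [Polynomial.coeff_zero] at h3
        rw [omI_coeff, if_pos (Nat.sub_le _ _), Nat.sub_sub_self him] at h3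
        exact hi h3
      · exact absurd rfl hi
    -- the charts
    have hrc : ∀ c, Rd (gc c ()) := fun c => by
      refine rd_child hr (ξ := ch c) (fun i => ?_) 0 (hgc c ()) ?_ (not_dvd_of_r0 (hc0 c))
      · fin_cases i <;> simp
      · rw [ch0, ch1]
        simp [Derivation.leibniz, pderiv_X]
    have hrI : Rd (gI ()) := by
      refine rd_child hr (ξ := chI) (fun i => ?_) 1 (hgI ()) ?_ (not_dvd_of_r1 hI1)
      · fin_cases i <;> simp
      · rw [chI0, chI1]
        simp [Derivation.leibniz, pderiv_X]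
    obtain ⟨Z0, hZ0⟩ := ih0 (hrc 0) (a0 + a1 + m) (n0 + n1) a1 n1 (fun h => by simp at h) t1
    have hZc' : ∀ c : ℂ, c ≠ 0 → ∃ Z, RedZeta Φ ℓ (gc c ()) (a0 + a1 + m) (n0 + n1) 0 1 Z := fun c hcne =>
      ihc c hcne (hrc c) (a0 + a1 + m) (n0 + n1) 0 1 (fun h => by simp at h) (fun _ => ⟨rfl, rfl⟩)
    obtain ⟨ZI, hZI⟩ := ihI hrI a0 n0 (a0 + a1 + m) (n0 + n1) t0 (fun h => by simp at h)
    choose! Zc hZc using hZc'
    -- the finite set
    have hcc : ∀ c, constantCoeff (gc c ()) = (r0 (gc 0 ())).eval c := fun c => by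
      rw [cc_eq, ← r0_coeff, hPc c, Polynomial.coeff_zero_eq_eval_zero, Polynomial.eval_comp]
      simp
    refine ⟨_, RedZeta.blowup (g ()) a0 n0 a1 n1 m hm (fun c => gc c ()) (gI ()) (fun c => ?_) ?_
      (insert 0 (r0 (gc 0 ())).roots.toFinset) (Finset.mem_insert_self _ _) (fun c hcS => ?_)
      (fun c => if c = 0 then Z0 else Zc c) ZI ?_ (fun c _ hcne => ?_) hZI⟩
    · rw [chart_eq]
      exact hgc c ()
    · rw [chartI_eq]
      exact hgI ()
    · rw [hcc c]
      intro h2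
      apply hcS
      refine Finset.mem_insert_of_mem ?_
      rw [Multiset.mem_toFinset, Polynomial.mem_roots hP]
      exact h2
    · rw [if_pos rfl]
      exact hZ0
    · rw [if_neg hcne]
      exact hZc c hcne

/-- **(EX)** -/
theorem t_EX : Pool.Agent.J4H50.YJ.S_EX := by
  intro R _ u F hF hF0 hred
  have hT : KT (fun _ : Unit => F) false false := exists_KT _ false false ⟨(), hF⟩ (by simp) (by simp)
  exact exists_red (mf u) (PowerSeries.C (u : R)) hT hred 0 1 0 1 (fun _ => ⟨rfl, rfl⟩) (fun _ => ⟨rfl, rfl⟩)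

end Pool.Agent.J4H97.YJ
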